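import Pool.Agent.Q287.DS.Main

/-!
# Divisible sandpile: almost sure stabilization at the third-moment endpoint
-/

namespace Pool.Agent.Results.MP_fd85b0_pr.ThirdMomentEndpoint

open MeasureTheory ProbabilityTheory Finset Filter
open Pool.Agent.Q287.DS

/-- finite balls exhausting a locally finite graph -/
noncomputable def ball {V : Type*} (G : SimpleGraph V) [G.LocallyFinite] (x : V) : ℕ → Set V
  | 0 => {x}
  | n + 1 => ⋃ v ∈ ball G x n, (G.neighborFinset v : Set V)

theorem countable_of_connected {V : Type*} (G : SimpleGraph V) [G.LocallyFinite]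
    (hconn : G.Connected) : Countable V := by
  obtain ⟨x⟩ := hconn.nonempty
  have hfin : ∀ n, (ball G x n).Finite := by
    intro n
    induction n with
    | zero => exact Set.finite_singleton x
    | succ n ih => exact ih.biUnion fun v _ => Finset.finite_toSet _
  have hcov : (⋃ n, ball G x n) = Set.univ := by
    refine Set.eq_univ_of_forall fun y => ?_
    obtain ⟨p⟩ := hconn.preconnected x y
    have h : ∀ i, i ≤ p.length → p.getVert i ∈ ball G x i := by
      intro i
      induction i with
      | zero => intro _; rw [p.getVert_zero]; exact rfl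
      | succ i ih =>
        intro hi
        refine Set.mem_biUnion (ih (by omega)) ?_
        rw [Finset.mem_coe, SimpleGraph.mem_neighborFinset]
        exact p.adj_getVert_succ (by omega)
    have h2 := h p.length le_rfl
    rw [p.getVert_length] at h2
    exact Set.mem_iUnion.2 ⟨_, h2⟩
  have hc : (Set.univ : Set V).Countable := by
    rw [← hcov]
    exact Set.countable_iUnion fun n => (hfin n).countable
  exact Set.countable_univ_iff.1 hc

theorem exists_trunc {Ω : Type*} [MeasurableSpace Ω] {P : Measure Ω} [IsProbabilityMeasure P]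
    (f : Ω → ℝ) (hf : Measurable f) (hpos : Integrable (fun ω => max (f ω) 0) P)
    (hmean : Integrable f P → ∫ ω, f ω ∂P < 1) :
    ∃ M : ℕ, ∫ ω, max (f ω) (-(M:ℝ)) ∂P < 1 := by
  by_contra hcon
  push Not at hcon
  have hgint : ∀ M : ℕ, Integrable (fun ω => max (f ω) (-(M:ℝ))) P := fun M => by
    refine Integrable.mono' (hpos.add (integrable_const (M:ℝ)))
      (hf.max measurable_const).aestronglyMeasurable (ae_of_all _ fun ω => ?_)
    rw [Real.norm_eq_abs, Pi.add_apply, abs_le]
    have h0 : (0:ℝ) ≤ M := Nat.cast_nonneg M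
    constructor
    · have := le_max_right (f ω) (-(M:ℝ))
      have := le_max_right (f ω) 0
      linarith
    · refine max_le ?_ ?_
      · have := le_max_left (f ω) 0
        linarith
      · have := le_max_right (f ω) 0
        linarith
  set g : ℕ → Ω → ℝ := fun M ω => max (f ω) 0 - max (f ω) (-(M:ℝ)) with hg
  have hgnn : ∀ M ω, 0 ≤ g M ω := fun M ω =>
    sub_nonneg.2 (max_le_max le_rfl (by simp))
  have hgm : ∀ M, Measurable (g M) := fun M =>
    (hf.max measurable_const).sub (hf.max measurable_const)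
  have hgi : ∀ M, Integrable (g M) P := fun M => hpos.sub (hgint M)
  have hgE : ∀ M, ∫⁻ ω, ENNReal.ofReal (g M ω) ∂P ≤
      ENNReal.ofReal (∫ ω, max (f ω) 0 ∂P) := by
    intro M
    rw [← ofReal_integral_eq_lintegral_ofReal (hgi M) (ae_of_all _ fun ω => hgnn M ω)]
    refine ENNReal.ofReal_le_ofReal ?_
    have : ∫ ω, g M ω ∂P = ∫ ω, max (f ω) 0 ∂P - ∫ ω, max (f ω) (-(M:ℝ)) ∂P :=
      integral_sub hpos (hgint M)
    rw [this]
    linarith [hcon M]
  have hlim : ∀ ω, liminf (fun M => ENNReal.ofReal (g M ω)) atTop =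
      ENNReal.ofReal (max (f ω) 0 - f ω) := by
    intro ω
    refine Tendsto.liminf_eq (tendsto_const_nhds.congr' ?_)
    obtain ⟨N, hN⟩ := exists_nat_ge (-(f ω))
    filter_upwards [eventually_ge_atTop N] with M hM
    have h1 : -(M:ℝ) ≤ f ω := by
      have : (N:ℝ) ≤ M := by exact_mod_cast hM
      linarith
    simp only [hg]
    rw [max_eq_left h1]
  have hneg : ∫⁻ ω, ENNReal.ofReal (max (f ω) 0 - f ω) ∂P ≤
      ENNReal.ofReal (∫ ω, max (f ω) 0 ∂P) := by
    have h1 := lintegral_liminf_le (μ := P) (u := (atTop : Filter ℕ)) (f := fun M ω => ENNReal.ofReal (g M ω))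
      fun M => (hgm M).ennreal_ofReal
    simp only [hlim] at h1
    refine h1.trans ?_
    exact liminf_le_of_le (by isBoundedDefault) fun b hb => by
      obtain ⟨M, hM⟩ := hb.exists
      exact hM.trans (hgE M)
  have hnegint : Integrable (fun ω => max (f ω) 0 - f ω) P := by
    refine ⟨((hf.max measurable_const).sub hf).aestronglyMeasurable, ?_⟩
    rw [hasFiniteIntegral_iff_ofReal (ae_of_all _ fun ω => sub_nonneg.2 (le_max_left _ _))]
    exact lt_of_le_of_lt hneg ENNReal.ofReal_lt_top
  have hfint : Integrable f P := by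
    have : f = fun ω => max (f ω) 0 - (max (f ω) 0 - f ω) := by funext ω; ring
    rw [this]
    exact hpos.sub hnegint
  have ht : Tendsto (fun M : ℕ => ∫ ω, max (f ω) (-(M:ℝ)) ∂P) atTop (nhds (∫ ω, f ω ∂P)) := by
    refine tendsto_integral_of_dominated_convergence (fun ω => |f ω|)
      (fun M => (hgint M).aestronglyMeasurable) hfint.abs (fun M => ae_of_all _ fun ω => ?_)
      (ae_of_all _ fun ω => ?_)
    · rw [Real.norm_eq_abs, abs_le]
      have h0 : (0:ℝ) ≤ M := Nat.cast_nonneg M
      constructor
      · exact (neg_abs_le _).trans (le_max_left _ _)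
      · refine max_le (le_abs_self _) ?_
        have := abs_nonneg (f ω)
        linarith
    · refine tendsto_const_nhds.congr' ?_
      obtain ⟨N, hN⟩ := exists_nat_ge (-(f ω))
      filter_upwards [eventually_ge_atTop N] with M hM
      have : (N:ℝ) ≤ M := by exact_mod_cast hM
      rw [max_eq_left (by linarith)]
  have h1 := ge_of_tendsto' ht hcon
  have h2 := hmean hfint
  linarith

/-- **Third-moment endpoint.**  Let `G` be an infinite connected graph whose degrees are bounded
by `D`, and let the masses `σ v`, `v ∈ V`, be i.i.d. real random variables with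
`E[(σ v ^ +)^3] < ∞` and extended mean in `[-∞, 1)` (the mean is `< 1` whenever the masses are
integrable; when they are not, the mean is `-∞` because the positive part is integrable).  Then
almost surely the parallel toppling of the divisible sandpile stabilizes. -/
theorem result {V : Type*} [Infinite V] (G : SimpleGraph V) [G.LocallyFinite]
    (hconn : G.Connected) (D : ℕ) (hD : ∀ v, G.degree v ≤ D)
    {Ω : Type*} [MeasurableSpace Ω] (P : Measure Ω) [IsProbabilityMeasure P]
    (σ : V → Ω → ℝ) (hmeas : ∀ v, Measurable (σ v)) (hindep : iIndepFun σ P)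
    (hident : ∀ v w, IdentDistrib (σ v) (σ w) P P)
    (hthird : ∀ v, Integrable (fun ω => max (σ v ω) 0 ^ 3) P)
    (hmean : ∀ v, Integrable (σ v) P → ∫ ω, σ v ω ∂P < 1) :
    ∀ᵐ ω ∂P, Stabilizes G (fun v => σ v ω) := by
  have : Countable V := countable_of_connected G hconn
  obtain ⟨x0⟩ := hconn.nonempty
  have hdeg : ∀ v, 0 < G.degree v := fun v => hconn.preconnected.degree_pos_of_nontrivial v
  have hD1 : 1 ≤ D := (hdeg x0).trans_le (hD x0)
  have hDr : (1:ℝ) ≤ D := by exact_mod_cast hD1
  set c : ℝ := 1 / (2 * D) with hc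
  have hc0 : 0 < c := by positivity
  have hcD : c * D = 1 / 2 := by rw [hc]; field_simp
  have hc1 : c ≤ 1 / 2 := by
    rw [hc, div_le_div_iff₀ (by positivity) (by norm_num)]; linarith
  have hcd : ∀ v, c * G.degree v ≤ 1 := fun v => by
    have : c * G.degree v ≤ c * D := mul_le_mul_of_nonneg_left (by exact_mod_cast hD v) hc0.le
    linarith
  have hposint : Integrable (fun ω => max (σ x0 ω) 0) P := by
    refine Integrable.mono' ((hthird x0).add (integrable_const (1:ℝ)))
      ((hmeas x0).max measurable_const).aestronglyMeasurable (ae_of_all _ fun ω => ?_)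
    have ht : 0 ≤ max (σ x0 ω) 0 := le_max_right _ _
    rw [Real.norm_eq_abs, Pi.add_apply, abs_of_nonneg ht]
    nlinarith [mul_nonneg ht (sq_nonneg (max (σ x0 ω) 0 - 1)), sq_nonneg (max (σ x0 ω) 0 - 1)]
  obtain ⟨M, hM⟩ := exists_trunc (σ x0) (hmeas x0) hposint (hmean x0)
  have hMr : (0:ℝ) ≤ M := Nat.cast_nonneg M
  set ξ : V → Ω → ℝ := fun v ω => max (σ v ω) (-(M:ℝ)) - 1 with hξ
  set δ : ℝ := (1 - ∫ ω, max (σ x0 ω) (-(M:ℝ)) ∂P) / 3 with hδ
  have hδpos : 0 < δ := by rw [hδ]; linarith
  have hφ : Measurable fun t : ℝ => max t (-(M:ℝ)) - 1 :=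
    (measurable_id.max measurable_const).sub measurable_const
  have hξid : ∀ v w, IdentDistrib (ξ v) (ξ w) P P := fun v w => (hident v w).comp hφ
  have hmaxint : Integrable (fun ω => max (σ x0 ω) (-(M:ℝ))) P := by
    refine Integrable.mono' (hposint.add (integrable_const (M:ℝ)))
      ((hmeas x0).max measurable_const).aestronglyMeasurable (ae_of_all _ fun ω => ?_)
    rw [Real.norm_eq_abs, Pi.add_apply, abs_le]
    constructor
    · have := le_max_right (σ x0 ω) (-(M:ℝ))
      have := le_max_right (σ x0 ω) 0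
      linarith
    · refine max_le ?_ ?_
      · have := le_max_left (σ x0 ω) 0
        linarith
      · have := le_max_right (σ x0 ω) 0
        linarith
  have hξmean : ∀ v, ∫ ω, ξ v ω ∂P ≤ -(3 * δ) := by
    intro v
    rw [(hξid v x0).integral_eq]
    have h1 : ∫ ω, ξ x0 ω ∂P = ∫ ω, max (σ x0 ω) (-(M:ℝ)) ∂P - ∫ _ω, (1:ℝ) ∂P :=
      integral_sub hmaxint (integrable_const _)
    rw [h1]
    simp only [integral_const, probReal_univ, one_smul]
    rw [hδ]; linarith
  have hae : ∀ᵐ ω ∂P, ∀ x, BddAbove (Set.range fun n => W G c (fun v => ξ v ω) n x) := by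
    rw [ae_all_iff]
    intro x
    refine W_bdd_ae G hconn hc0 hcD hD hc1 P ξ (fun v => hφ.comp (hmeas v))
      (hindep.comp (fun _ t => max t (-(M:ℝ)) - 1) fun _ => hφ) hξid
      (L := M + 1) (by linarith) hδpos (fun v ω => ?_) (fun v => ?_) hξmean x
    · have := le_max_right (σ v ω) (-(M:ℝ))
      simp only [hξ]
      linarith
    · refine Integrable.mono' (hthird v)
        (((hφ.comp (hmeas v)).max measurable_const).pow_const 3).aestronglyMeasurable
        (ae_of_all _ fun ω => ?_)
      have h1 : max (ξ v ω) 0 ≤ max (σ v ω) 0 := by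
        refine max_le ?_ (le_max_right _ _)
        have h2 : max (σ v ω) (-(M:ℝ)) ≤ max (σ v ω) 0 := max_le_max le_rfl (by linarith)
        simp only [hξ]
        linarith
      have h0 : 0 ≤ max (ξ v ω) 0 := le_max_right _ _
      change ‖max (ξ v ω) 0 ^ 3‖ ≤ _
      rw [Real.norm_eq_abs, abs_of_nonneg (by positivity)]
      exact pow_le_pow_left₀ h0 h1 3
  filter_upwards [hae] with ω hω
  obtain ⟨f, hf0, hf⟩ := super_of_bdd G hc0 hcd (fun v => ξ v ω) hω
  refine stabilizes_of_super G hdeg _ f hf0 fun v => ?_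
  have h1 := hf v
  have h2 : σ v ω ≤ max (σ v ω) (-(M:ℝ)) := le_max_left _ _
  simp only [hξ] at h1
  linarith

end Pool.Agent.Results.MP_fd85b0_pr.ThirdMomentEndpoint
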